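import Pool.Agent.Q189.MV.KZ2

/-!
# Injectivity of the KZ point from the solutions of the KZ equation at one rational point

For an integer `n ≥ 2` let `Wn n N` be the `ℚ`-span of the numbers `(2 π i)^a Li_s(1 - 1/n) Li_t(1/n)` with
`a + |s| + |t| ≤ N`. (By the shuffle relations these are the combinations of the products of powers of `2 π i` and coefficients
of the solutions `G_0` and `G_1` of the KZ equation at the point `1/n`, of total degree at most `N`.) Let `r N` be the dimension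
of the span of the polynomials of degree at most `N` in `μ` and the coordinates `φ_b` in the coordinate ring `ℚ[M]` of the scheme
of associators and `total r N = ∑_{k ≤ N} 2^k r (N - k)`.

* `dim Wn n N ≤ total r N` for all `n ≥ 2`.
* `φ_KZ` has no relation of degree at most `N` which does not follow from the associator equations if and only if this is an
  equality for ONE `n ≥ 2`.
* If there is a relation of degree at most `p` then `dim Wn n (N + p) ≤ total r (N + p) - total r N` for all `n ≥ 2` and all `N`.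
* `φ_KZ` is injective if and only if for each `p` there are `N` and `n ≥ 2` with
  `dim Wn n (N + p) > total r (N + p) - total r N`; if and only if `max_n dim Wn n N` is asymptotic to `total r N`.
* Without any hypothesis: `dim Wn n M = ∑_{k ≤ M} 2^k dim T (M - k)` for all `M ≤ N` at almost all integers `n`, where `T k` is
  the span of the numbers `(2 π i)^a ζ(s)` of weight at most `k`.
-/

set_option autoImplicit false

open Module

namespace Pool.Agent.Q189.SP.KZPoint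

open Pool.Agent.Q187.ZD (tot)
open Pool.Agent.Q187.ZD.KZ (T IsAssociatorRing)

/-- the truncated sums `∑_{N ≥ n_1 > … > n_k ≥ 1} 1 / (n_1^{s_1} ⋯ n_k^{s_k})` -/
noncomputable def truncated : List ℕ → ℕ → ℝ
  | [], _ => 1
  | a :: s, N => ∑ n ∈ Finset.range N, 1 / ((n : ℝ) + 1) ^ a * truncated s n

/-- the multiple polylogarithm `Li_s(x) = ∑_{n_1 > … > n_k ≥ 1} x^{n_1} / (n_1^{s_1} ⋯ n_k^{s_k})` -/
noncomputable def Li : List ℕ → ℝ → ℝ
  | [], _ => 1
  | a :: s, x => ∑' n : ℕ, x ^ (n + 1) / ((n : ℝ) + 1) ^ a * truncated s n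

/-- the span of the products of powers of `2 π i` and values at `1 - 1/n` and `1/n` of total weight at most `N` -/
noncomputable def Wn (n N : ℕ) : Submodule ℚ ℂ :=
  Submodule.span ℚ {r : ℂ | ∃ (a : ℕ) (s t : List ℕ), (∀ b ∈ s, 1 ≤ b) ∧ (∀ b ∈ t, 1 ≤ b) ∧ a + s.sum + t.sum ≤ N ∧
    r = (2 * Real.pi * Complex.I) ^ a * ((Li s (1 - 1 / n) * Li t (1 / n) : ℝ) : ℂ)}

/-- the sum `∑_{k ≤ N} 2^k r (N - k)` -/
def total (r : ℕ → ℕ) (N : ℕ) : ℕ := ∑ k ∈ Finset.range (N + 1), 2 ^ k * r (N - k)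

/-- (1)-(5): the criteria, for every ring with the known properties of the coordinate ring of the scheme of associators;
(6): the unconditional statement -/
theorem joined :
    (∀ {R : Type} [CommRing R] [Algebra ℚ R] (gr : ℕ → Submodule ℚ R) (μ : R) (φ : R →ₐ[ℚ] ℂ),
      IsAssociatorRing gr μ φ → ∀ r : ℕ → ℕ, (∀ N, r N = finrank ℚ (tot gr N)) →
      (∀ n N : ℕ, 2 ≤ n → finrank ℚ (Wn n N) ≤ total r N) ∧
      (∀ N : ℕ, (∀ x ∈ tot gr N, φ x = 0 → x = 0) ↔ ∃ n : ℕ, 2 ≤ n ∧ finrank ℚ (Wn n N) = total r N) ∧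
      (∀ p : ℕ, (∃ x ∈ tot gr p, x ≠ 0 ∧ φ x = 0) →
        ∀ n N : ℕ, 2 ≤ n → finrank ℚ (Wn n (N + p)) + total r N ≤ total r (N + p)) ∧
      (Function.Injective φ ↔ ∀ p, ∃ N n : ℕ, 2 ≤ n ∧ total r (N + p) < finrank ℚ (Wn n (N + p)) + total r N) ∧
      (Function.Injective φ ↔ ∀ ε : ℝ, 0 < ε → ∃ N₀ : ℕ, ∀ N ≥ N₀, ∃ n : ℕ, 2 ≤ n ∧
        (1 - ε) * total r N ≤ finrank ℚ (Wn n N))) ∧
    (∀ N : ℕ, ∃ C c : ℝ, 0 < c ∧ ∀ B : ℕ, 1 ≤ B →
      (({n : ℕ | 3 ≤ n ∧ n ≤ B ∧ ¬ ∀ M ≤ N, finrank ℚ (Wn n M) = total (fun k => finrank ℚ (T k)) M}.ncard : ℕ) : ℝ) ≤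
        C * (B : ℝ) ^ (1 - c)) := by
  have ht : truncated = Pool.Agent.Q189.MV.trunc := by
    funext s
    induction s with
    | nil => rfl
    | cons a s ih =>
      funext N
      show ∑ n ∈ Finset.range N, 1 / ((n : ℝ) + 1) ^ a * truncated s n =
        ∑ n ∈ Finset.range N, 1 / ((n : ℝ) + 1) ^ a * Pool.Agent.Q189.MV.trunc s n
      rw [ih]
  have hL : Li = Pool.Agent.Q189.MV.Lis := by
    funext s x
    rcases s with _ | ⟨a, s⟩
    · rfl
    · show ∑' n : ℕ, x ^ (n + 1) / ((n : ℝ) + 1) ^ a * truncated s n =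
        ∑' n : ℕ, x ^ (n + 1) / ((n : ℝ) + 1) ^ a * Pool.Agent.Q189.MV.trunc s n
      rw [ht]
  have hW : Wn = Pool.Agent.Q189.MV.KZ2.Wn := by
    funext n N
    unfold Wn Pool.Agent.Q189.MV.KZ2.Wn
    rw [hL]
  rw [hW]
  refine ⟨?_, Pool.Agent.Q189.MV.KZ2.few_W⟩
  intro R _ _ gr μ φ h r hr
  have hr' : r = fun k => finrank ℚ (tot gr k) := funext hr
  subst hr'
  have key : ∀ N, (∀ x ∈ tot gr N, φ x = 0 → x = 0) ↔ ¬ Pool.Agent.Q187.ZD.KZ.Relation gr φ N := by
    intro N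
    constructor
    · rintro h1 ⟨x, hx, hx0, h0⟩
      exact hx0 (h1 x hx h0)
    · intro h1 x hx h0
      by_contra hx0
      exact h1 ⟨x, hx, hx0, h0⟩
  refine ⟨fun n N hn => Pool.Agent.Q189.MV.KZ2.bound h hn N, fun N => ?_, fun p hp n N hn => ?_,
    Pool.Agent.Q189.MV.KZ2.counts2 h, Pool.Agent.Q189.MV.KZ2.limit2 h⟩
  · rw [key]
    exact Pool.Agent.Q189.MV.KZ2.one_iff h N
  · exact Pool.Agent.Q189.MV.KZ2.drop2 h hp hn N

end Pool.Agent.Q189.SP.KZPoint
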