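import Pool.Agent.Q189.MV.OD

/-!
# Relations between odd double zeta values and double polylogarithms at `1 - 1/n`

Let `m ≥ 2`, `k = 2 m`, and let `R_k` be the space of the rational relations between the `m - 1` numbers `ζ(2a+1, 2b-1)`,
`a + b = m`. For an integer `n ≥ 2` let `V_k(n)` be the rational space spanned by the products
`log(n)^a Li_t(1/n) Li_s(1 - 1/n)` of multiple polylogarithms of total weight `a + |t| + |s| = k` with `a + |t| ≥ 1`, and let `R_k(n)` be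
the space of the rational relations between the double polylogarithms `Li_{2a+1, 2b-1}(1 - 1/n)` modulo `V_k(n)`. Then

* `R_k` is contained in `R_k(n)` for ALL `n ≥ 2`, and `R_k(n) = R_k` for all `n ≤ T` but `C T ^ (1 - c)`;
* hence the dimension of `R_k` is the minimum of the dimensions of the `R_k(n)`, and the open half `dim R_k ≤ dim S_k` of the
  question holds if and only if `dim R_k(n) ≤ dim S_k` for ONE integer `n ≥ 2`; with the known half `dim R_k ≥ dim S_k`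
  (Gangl, Kaneko and Zagier) as a hypothesis, the question has a positive answer if and only if for each even `k ≥ 4` there is
  one `n ≥ 2` with `dim R_k(n) = dim S_k`;
* the same for all families of multiple zeta values of a given weight `k`, with one exceptional set for all families.
-/

set_option autoImplicit false

open Module

namespace Pool.Agent.Q189.SP.Rel

/-- truncated multiple sums -/
noncomputable def trunc : List ℕ → ℕ → ℝ
  | [], _ => 1
  | a :: s, N => ∑ n ∈ Finset.range N, 1 / ((n : ℝ) + 1) ^ a * trunc s n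

/-- multiple polylogarithms `Li_{s_1, …, s_r}(x)`, the sum of `x ^ m_1 / (m_1 ^ s_1 ⋯ m_r ^ s_r)` over `m_1 > ⋯ > m_r ≥ 1` -/
noncomputable def Li : List ℕ → ℝ → ℝ
  | [], _ => 1
  | a :: s, x => ∑' n : ℕ, x ^ (n + 1) / ((n : ℝ) + 1) ^ a * trunc s n

/-- the index `(2 i + 3, 2 m - 2 i - 3)`, `0 ≤ i < m - 1` -/
def index (m : ℕ) (i : Fin (m - 1)) : List ℕ := [2 * (i : ℕ) + 3, 2 * m - 2 * (i : ℕ) - 3]

/-- the double zeta value `ζ(2 i + 3, 2 m - 2 i - 3)` -/
noncomputable def dz (m : ℕ) (i : Fin (m - 1)) : ℝ :=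
  ∑' p : ℕ × ℕ, (1 : ℝ) / ((((p.1 + p.2 + 2 : ℕ) : ℝ) ^ (2 * (i : ℕ) + 3)) * (((p.2 + 1 : ℕ) : ℝ) ^ (2 * m - 2 * (i : ℕ) - 3)))

/-- multiple zeta values as sums over tuples -/
noncomputable def mzv (s : List ℕ) : ℝ :=
  ∑' m : {m : Fin s.length → ℕ // StrictAnti m ∧ ∀ i, 0 < m i}, ∏ i, ((m.1 i : ℝ) ^ (s.get i))⁻¹

/-- indices of convergent multiple zeta values -/
def Admissible (s : List ℕ) : Prop := (∀ a ∈ s, 1 ≤ a) ∧ ∀ a t, s = a :: t → 2 ≤ a

/-- the products of weight `k` with a factor of positive weight at `1/n` -/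
noncomputable def products (k n : ℕ) : Submodule ℚ ℝ :=
  Submodule.span ℚ {r | ∃ (a : ℕ) (t s : List ℕ), (∀ b ∈ t, 1 ≤ b) ∧ (∀ b ∈ s, 1 ≤ b) ∧ a + t.sum + s.sum = k ∧
    1 ≤ a + t.sum ∧ r = Real.log n ^ a * Li t (1 / n) * Li s (1 - 1 / n)}

/-- the relations between given real numbers modulo a space -/
noncomputable def Relations {r : ℕ} (v : Fin r → ℝ) (M : Submodule ℚ ℝ) : Submodule ℚ (Fin r → ℚ) :=
  M.comap (Fintype.linearCombination ℚ v)

/-- the relations between the odd double zeta values of weight `2 m` -/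
noncomputable def R (m : ℕ) : Submodule ℚ (Fin (m - 1) → ℚ) := Relations (dz m) ⊥

/-- the relations between the values at `1 - 1/n` modulo the products -/
noncomputable def Rn (m n : ℕ) : Submodule ℚ (Fin (m - 1) → ℚ) :=
  Relations (fun i => Li (index m i) (1 - 1 / n)) (products (2 * m) n)

/-- the dimension of the space of cusp forms of weight `2 m` -/
noncomputable def cusp (m : ℕ) : ℕ := finrank ℂ (CuspForm (CongruenceSubgroup.Gamma 1) (2 * (m : ℤ)))

/-- (1) all integers; (2) almost all integers; (3) one integer for a bound of the number of relations, for the dimension of the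
span of the double zeta values; (4) the question, given the known lower bound; (5) all families of a given weight. -/
theorem joined :
    (∀ m n : ℕ, 2 ≤ m → 2 ≤ n → R m ≤ Rn m n) ∧
    (∀ m : ℕ, 2 ≤ m → ∃ C c : ℝ, 0 < c ∧ ∀ T : ℕ, 1 ≤ T →
      (({n : ℕ | 2 ≤ n ∧ n ≤ T ∧ Rn m n ≠ R m}.ncard : ℕ) : ℝ) ≤ C * (T : ℝ) ^ (1 - c)) ∧
    (∀ m : ℕ, 2 ≤ m → finrank ℚ (Submodule.span ℚ (Set.range (dz m))) + finrank ℚ (R m) = m - 1 ∧
      ∀ e : ℕ, (finrank ℚ (R m) ≤ e ↔ ∃ n : ℕ, 2 ≤ n ∧ finrank ℚ (Rn m n) ≤ e) ∧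
        (m - 1 ≤ finrank ℚ (Submodule.span ℚ (Set.range (dz m))) + e ↔ ∃ n : ℕ, 2 ≤ n ∧ finrank ℚ (Rn m n) ≤ e)) ∧
    ((∀ m : ℕ, 2 ≤ m → cusp m ≤ finrank ℚ (R m)) →
      ((∀ m : ℕ, 2 ≤ m → finrank ℚ (Submodule.span ℚ (Set.range (dz m))) + cusp m = m - 1) ↔
        ∀ m : ℕ, 2 ≤ m → ∃ n : ℕ, 2 ≤ n ∧ finrank ℚ (Rn m n) = cusp m)) ∧
    ∀ k : ℕ, ∃ C c : ℝ, 0 < c ∧ ∀ T : ℕ, 1 ≤ T →
      (({n : ℕ | 2 ≤ n ∧ n ≤ T ∧ ¬ ∀ (r : ℕ) (s : Fin r → List ℕ), (∀ i, Admissible (s i)) → (∀ i, (s i).sum = k) →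
        Relations (fun i => Li (s i) (1 - 1 / n)) (products k n) = Relations (fun i => mzv (s i)) ⊥}.ncard : ℕ) : ℝ) ≤
          C * (T : ℝ) ^ (1 - c) := by
  have htr : ∀ (s : List ℕ) (N : ℕ), trunc s N = Pool.Agent.Q189.MV.trunc s N := by
    intro s
    induction s with
    | nil => intro N; rfl
    | cons a s ih =>
      intro N
      show ∑ n ∈ Finset.range N, 1 / ((n : ℝ) + 1) ^ a * trunc s n = ∑ n ∈ Finset.range N, 1 / ((n : ℝ) + 1) ^ a *
        Pool.Agent.Q189.MV.trunc s n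
      exact Finset.sum_congr rfl fun n _ => by rw [ih]
  have hLi : ∀ (s : List ℕ) (x : ℝ), Li s x = Pool.Agent.Q189.MV.Lis s x := by
    intro s x
    rcases s with _ | ⟨a, s⟩
    · rfl
    · show ∑' n : ℕ, x ^ (n + 1) / ((n : ℝ) + 1) ^ a * trunc s n = ∑' n : ℕ, x ^ (n + 1) / ((n : ℝ) + 1) ^ a *
        Pool.Agent.Q189.MV.trunc s n
      exact tsum_congr fun n => by rw [htr]
  have hprod : ∀ k n : ℕ, products k n = Pool.Agent.Q189.MV.Vp (1 / n) k := by
    intro k n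
    unfold products Pool.Agent.Q189.MV.Vp
    simp only [hLi, one_div_one_div]
  have hadm : ∀ s, Admissible s → Pool.Agent.H447R2.MZ.Adm s := fun s hs => hs
  have hmzv : ∀ s, Admissible s → mzv s = Pool.Agent.H447R2.MZ.val s := fun s hs =>
    Pool.Agent.Q189.MV.val_tsum s (hadm s hs)
  have hidx : ∀ (m : ℕ), 2 ≤ m → ∀ i : Fin (m - 1), Admissible (index m i) ∧ (index m i).sum = 2 * m := by
    intro m hm i
    have hi := i.2
    refine ⟨⟨fun a ha => ?_, fun a t h => ?_⟩, ?_⟩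
    · unfold index at ha
      rcases List.mem_cons.1 ha with rfl | ha
      · omega
      · rw [List.mem_singleton.1 ha]
        omega
    · have := (List.cons.inj h).1
      omega
    · unfold index
      simp only [List.sum_cons, List.sum_nil]
      omega
  have hdz : ∀ (m : ℕ), 2 ≤ m → ∀ i : Fin (m - 1), dz m i = Pool.Agent.H447R2.MZ.val (index m i) := by
    intro m hm i
    have hi := i.2
    exact Pool.Agent.Q189.MV.val_two (by omega) (by omega)
  -- the spaces of relations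
  have hR : ∀ (r : ℕ) (s : Fin r → List ℕ), Relations (fun i => Pool.Agent.H447R2.MZ.val (s i)) ⊥ = Pool.Agent.Q189.MV.RF s := by
    intro r s
    ext c
    show Fintype.linearCombination ℚ (fun i => Pool.Agent.H447R2.MZ.val (s i)) c = 0 ↔ ∑ i, (c i : ℝ) * Pool.Agent.H447R2.MZ.val (s i) = 0
    rw [Fintype.linearCombination_apply]
    simp only [Rat.smul_def]
  have hRn : ∀ (k r n : ℕ) (s : Fin r → List ℕ), Relations (fun i => Li (s i) (1 - 1 / n)) (products k n) =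
      Pool.Agent.Q189.MV.RX s k (1 / n) := by
    intro k r n s
    ext c
    show Fintype.linearCombination ℚ (fun i => Li (s i) (1 - 1 / n)) c ∈ products k n ↔
      ∑ i, (c i : ℝ) * Pool.Agent.Q189.MV.Lis (s i) (1 - 1 / n) ∈ Pool.Agent.Q189.MV.Vp (1 / n) k
    rw [Fintype.linearCombination_apply, hprod]
    simp only [Rat.smul_def, hLi]
  have hRm : ∀ m : ℕ, 2 ≤ m → R m = Pool.Agent.Q189.MV.RF (index m) := by
    intro m hm
    rw [← hR]
    unfold R
    congr 1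
    exact funext fun i => hdz m hm i
  have hRmn : ∀ m n : ℕ, Rn m n = Pool.Agent.Q189.MV.RX (index m) (2 * m) (1 / n) := fun m n => hRn (2 * m) (m - 1) n (index m)
  have all : ∀ m n : ℕ, 2 ≤ m → 2 ≤ n → R m ≤ Rn m n := by
    intro m n hm hn
    obtain ⟨h1, h2⟩ := Pool.Agent.Q189.MV.inv_pos_lt hn
    rw [hRm m hm, hRmn]
    exact Pool.Agent.Q189.MV.RF_le h1 h2 (fun i => hadm _ (hidx m hm i).1) fun i => (hidx m hm i).2
  -- from `3 ≤ n` to `2 ≤ n`
  have shift : ∀ A : ℕ → Prop, (∃ C c : ℝ, 0 < c ∧ ∀ T : ℕ, 1 ≤ T →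
      (({n : ℕ | 3 ≤ n ∧ n ≤ T ∧ A n}.ncard : ℕ) : ℝ) ≤ C * (T : ℝ) ^ (1 - c)) → ∃ C c : ℝ, 0 < c ∧ ∀ T : ℕ, 1 ≤ T →
      (({n : ℕ | 2 ≤ n ∧ n ≤ T ∧ A n}.ncard : ℕ) : ℝ) ≤ C * (T : ℝ) ^ (1 - c) := by
    rintro A ⟨C, c, hc, h⟩
    refine ⟨|C| + 1, min c 1, lt_min hc one_pos, fun T hT => ?_⟩
    have hT1 : (1 : ℝ) ≤ T := by exact_mod_cast hT
    have h1 : {n : ℕ | 2 ≤ n ∧ n ≤ T ∧ A n} ⊆ {n : ℕ | 3 ≤ n ∧ n ≤ T ∧ A n} ∪ {2} := by
      rintro n ⟨h2, h3, h4⟩
      rcases Nat.lt_or_ge n 3 with h5 | h5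
      · right
        rw [Set.mem_singleton_iff]
        omega
      · left
        exact ⟨h5, h3, h4⟩
    have h2 := (Set.ncard_le_ncard h1 ((((Set.finite_le_nat T).subset fun n hn => hn.2.1)).union (Set.finite_singleton 2))).trans
      (Set.ncard_union_le _ _)
    rw [Set.ncard_singleton] at h2
    have h3 : (T : ℝ) ^ (1 - c) ≤ (T : ℝ) ^ (1 - min c 1) :=
      Real.rpow_le_rpow_of_exponent_le hT1 (by linarith [min_le_left c 1])
    have h4 : (1 : ℝ) ≤ (T : ℝ) ^ (1 - min c 1) := Real.one_le_rpow hT1 (by linarith [min_le_right c 1])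
    have h5 : (0 : ℝ) ≤ (T : ℝ) ^ (1 - c) := by positivity
    calc (({n : ℕ | 2 ≤ n ∧ n ≤ T ∧ A n}.ncard : ℕ) : ℝ) ≤ (({n : ℕ | 3 ≤ n ∧ n ≤ T ∧ A n}.ncard : ℕ) : ℝ) + 1 := by
          exact_mod_cast h2
      _ ≤ C * (T : ℝ) ^ (1 - c) + 1 := by linarith [h T hT]
      _ ≤ |C| * (T : ℝ) ^ (1 - min c 1) + (T : ℝ) ^ (1 - min c 1) :=
          add_le_add ((mul_le_mul_of_nonneg_right (le_abs_self C) h5).trans (mul_le_mul_of_nonneg_left h3 (abs_nonneg _))) h4
      _ = (|C| + 1) * (T : ℝ) ^ (1 - min c 1) := by ring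
  have fam : ∀ k : ℕ, ∃ C c : ℝ, 0 < c ∧ ∀ T : ℕ, 1 ≤ T →
      (({n : ℕ | 2 ≤ n ∧ n ≤ T ∧ ¬ ∀ (r : ℕ) (s : Fin r → List ℕ), (∀ i, Admissible (s i)) → (∀ i, (s i).sum = k) →
        Relations (fun i => Li (s i) (1 - 1 / n)) (products k n) = Relations (fun i => mzv (s i)) ⊥}.ncard : ℕ) : ℝ) ≤
          C * (T : ℝ) ^ (1 - c) := by
    intro k
    refine shift _ ?_
    obtain ⟨C, c, hc, h⟩ := Pool.Agent.Q189.MV.few_RF k
    refine ⟨C, c, hc, fun T hT => ?_⟩
    refine le_trans (Nat.cast_le.2 (Set.ncard_le_ncard ?_ ((Set.finite_le_nat T).subset fun n hn => hn.2.1))) (h T hT)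
    rintro n ⟨h1, h2, h3⟩
    refine ⟨h1, h2, fun h4 => h3 fun r s hs hk => ?_⟩
    have h5 : (fun i => mzv (s i)) = fun i => Pool.Agent.H447R2.MZ.val (s i) := funext fun i => hmzv _ (hs i)
    rw [hRn, h5, hR]
    exact h4 r s (fun i => hadm _ (hs i)) hk
  have few : ∀ m : ℕ, 2 ≤ m → ∃ C c : ℝ, 0 < c ∧ ∀ T : ℕ, 1 ≤ T →
      (({n : ℕ | 2 ≤ n ∧ n ≤ T ∧ Rn m n ≠ R m}.ncard : ℕ) : ℝ) ≤ C * (T : ℝ) ^ (1 - c) := by
    intro m hm
    obtain ⟨C, c, hc, h⟩ := fam (2 * m)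
    refine ⟨C, c, hc, fun T hT => ?_⟩
    refine le_trans (Nat.cast_le.2 (Set.ncard_le_ncard ?_ ((Set.finite_le_nat T).subset fun n hn => hn.2.1))) (h T hT)
    rintro n ⟨h1, h2, h3⟩
    refine ⟨h1, h2, fun h4 => h3 ?_⟩
    have h5 := h4 (m - 1) (index m) (fun i => (hidx m hm i).1) fun i => (hidx m hm i).2
    have h6 : (fun i => mzv (index m i)) = dz m := funext fun i => (hmzv _ (hidx m hm i).1).trans (hdz m hm i).symm
    rw [h6] at h5
    exact h5
  have one : ∀ m : ℕ, 2 ≤ m → ∃ n : ℕ, 2 ≤ n ∧ Rn m n = R m := by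
    intro m hm
    obtain ⟨C, c, hc, h⟩ := few m hm
    obtain ⟨n, hn, h1⟩ := Pool.Agent.Q189.Z3.exists_of_few (A := fun n => Rn m n ≠ R m) hc (fun T hT => by
      refine le_trans (Nat.cast_le.2 (Set.ncard_le_ncard ?_ ((Set.finite_le_nat T).subset fun n hn => hn.2.1))) (h T hT)
      rintro n ⟨h1, h2, h3⟩
      exact ⟨by omega, h2, h3⟩)
    exact ⟨n, by omega, not_not.1 h1⟩
  have rank : ∀ m : ℕ, finrank ℚ (Submodule.span ℚ (Set.range (dz m))) + finrank ℚ (R m) = m - 1 := by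
    intro m
    have h1 := LinearMap.finrank_range_add_finrank_ker (Fintype.linearCombination ℚ (dz m))
    rw [Fintype.range_linearCombination, Module.finrank_fin_fun] at h1
    exact h1
  have crit : ∀ m : ℕ, 2 ≤ m → ∀ e : ℕ, finrank ℚ (R m) ≤ e ↔ ∃ n : ℕ, 2 ≤ n ∧ finrank ℚ (Rn m n) ≤ e := by
    intro m hm e
    constructor
    · intro h
      obtain ⟨n, hn, h1⟩ := one m hm
      exact ⟨n, hn, by rw [h1]; exact h⟩
    · rintro ⟨n, hn, h⟩
      exact (Submodule.finrank_mono (all m n hm hn)).trans h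
  refine ⟨all, few, fun m hm => ⟨rank m, fun e => ⟨crit m hm e, ?_⟩⟩, fun hGKZ => ?_, fam⟩
  · rw [← crit m hm e]
    have := rank m
    omega
  · constructor
    · intro h m hm
      obtain ⟨n, hn, h1⟩ := one m hm
      refine ⟨n, hn, ?_⟩
      rw [h1]
      have h2 := h m hm
      have h3 := rank m
      omega
    · intro h m hm
      obtain ⟨n, hn, h1⟩ := h m hm
      have h2 := (crit m hm (cusp m)).2 ⟨n, hn, h1.le⟩
      have h3 := hGKZ m hm
      have h4 := rank m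
      omega

/-- the inclusion of the spaces of relations at all integers, for all families -/
theorem incl (k n : ℕ) (hn : 2 ≤ n) (r : ℕ) (s : Fin r → List ℕ) (hs : ∀ i, Admissible (s i)) (hk : ∀ i, (s i).sum = k) :
    Relations (fun i => mzv (s i)) ⊥ ≤ Relations (fun i => Li (s i) (1 - 1 / n)) (products k n) := by
  have htr : ∀ (s : List ℕ) (N : ℕ), trunc s N = Pool.Agent.Q189.MV.trunc s N := by
    intro s
    induction s with
    | nil => intro N; rfl
    | cons a s ih =>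
      intro N
      show ∑ n ∈ Finset.range N, 1 / ((n : ℝ) + 1) ^ a * trunc s n = ∑ n ∈ Finset.range N, 1 / ((n : ℝ) + 1) ^ a *
        Pool.Agent.Q189.MV.trunc s n
      exact Finset.sum_congr rfl fun n _ => by rw [ih]
  have hLi : ∀ (s : List ℕ) (x : ℝ), Li s x = Pool.Agent.Q189.MV.Lis s x := by
    intro s x
    rcases s with _ | ⟨a, s⟩
    · rfl
    · show ∑' n : ℕ, x ^ (n + 1) / ((n : ℝ) + 1) ^ a * trunc s n = ∑' n : ℕ, x ^ (n + 1) / ((n : ℝ) + 1) ^ a *
        Pool.Agent.Q189.MV.trunc s n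
      exact tsum_congr fun n => by rw [htr]
  have hprod : ∀ k n : ℕ, products k n = Pool.Agent.Q189.MV.Vp (1 / n) k := by
    intro k n
    unfold products Pool.Agent.Q189.MV.Vp
    simp only [hLi, one_div_one_div]
  have h5 : (fun i => mzv (s i)) = fun i => Pool.Agent.H447R2.MZ.val (s i) := funext fun i =>
    Pool.Agent.Q189.MV.val_tsum (s i) (hs i)
  have h6 : Relations (fun i => Pool.Agent.H447R2.MZ.val (s i)) ⊥ = Pool.Agent.Q189.MV.RF s := by
    ext c
    show Fintype.linearCombination ℚ (fun i => Pool.Agent.H447R2.MZ.val (s i)) c = 0 ↔ ∑ i, (c i : ℝ) * Pool.Agent.H447R2.MZ.val (s i) = 0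
    rw [Fintype.linearCombination_apply]
    simp only [Rat.smul_def]
  have h7 : Relations (fun i => Li (s i) (1 - 1 / n)) (products k n) = Pool.Agent.Q189.MV.RX s k (1 / n) := by
    ext c
    show Fintype.linearCombination ℚ (fun i => Li (s i) (1 - 1 / n)) c ∈ products k n ↔
      ∑ i, (c i : ℝ) * Pool.Agent.Q189.MV.Lis (s i) (1 - 1 / n) ∈ Pool.Agent.Q189.MV.Vp (1 / n) k
    rw [Fintype.linearCombination_apply, hprod]
    simp only [Rat.smul_def, hLi]
  obtain ⟨h1, h2⟩ := Pool.Agent.Q189.MV.inv_pos_lt hn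
  rw [h5, h6, h7]
  exact Pool.Agent.Q189.MV.RF_le h1 h2 (fun i => hs i) hk

end Pool.Agent.Q189.SP.Rel
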